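import Pool.Agent.N278.PC.Len

/-!
`e_n = E(H_n^2; Γ_1^0)` has exact order `n⁻²`: approximation of closed convex curves of length one by
polynomial curves of degree `n` in the Hausdorff distance induced by the max-norm.
The plane is `ℂ`, so that the length is the (Euclidean) one-dimensional Hausdorff measure.
-/

open MeasureTheory

namespace Pool.Agent.Results.MP_24cacf_an.Order

/-- the max-norm distance in the plane -/
noncomputable def dm (z w : ℂ) : ℝ := max |z.re - w.re| |z.im - w.im|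

/-- the Hausdorff distance of two (compact, nonempty) plane sets induced by the max-norm -/
noncomputable def r (F G : Set ℂ) : ℝ :=
  max (⨆ z : F, ⨅ w : G, dm z w) (⨆ z : G, ⨅ w : F, dm z w)

/-- the polynomial curve `{(P t, Q t) : t ∈ [0,1]}` -/
noncomputable def curve (P Q : Polynomial ℝ) : Set ℂ :=
  (fun t : ℝ => (⟨P.eval t, Q.eval t⟩ : ℂ)) '' Set.Icc 0 1

/-- `E(H_n^2; F)` -/
noncomputable def E (n : ℕ) (F : Set ℂ) : ℝ :=
  sInf {x | ∃ P Q : Polynomial ℝ, P.natDegree ≤ n ∧ Q.natDegree ≤ n ∧ x = r F (curve P Q)}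

/-- the class `Γ_1^0` of all closed convex curves of length `1` -/
def Gam : Set (Set ℂ) :=
  {F | ∃ K : Set ℂ, Convex ℝ K ∧ IsCompact K ∧ (interior K).Nonempty ∧ F = frontier K ∧
    Measure.hausdorffMeasure 1 F = 1}

/-- `e_n = E(H_n^2; Γ_1^0)` -/
noncomputable def e (n : ℕ) : ℝ := sSup {x | ∃ F ∈ Gam, x = E n F}

open Pool.Agent.N278.PC

lemma dm_nonneg (z w : ℂ) : 0 ≤ dm z w := (abs_nonneg _).trans (le_max_left _ _)

lemma dm_le_norm (z w : ℂ) : dm z w ≤ ‖z - w‖ := by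
  apply max_le
  · rw [← Complex.sub_re]; exact Complex.abs_re_le_norm _
  · rw [← Complex.sub_im]; exact Complex.abs_im_le_norm _

lemma norm_le_dm (z w : ℂ) : ‖z - w‖ ≤ 2 * dm z w := by
  have h1 : |z.re - w.re| ≤ dm z w := le_max_left _ _
  have h2 : |z.im - w.im| ≤ dm z w := le_max_right _ _
  have h3 := Complex.norm_le_abs_re_add_abs_im (z - w)
  rw [Complex.sub_re, Complex.sub_im] at h3
  linarith

lemma dm_comm (z w : ℂ) : dm z w = dm w z := by
  rw [dm, dm, abs_sub_comm z.re, abs_sub_comm z.im]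

lemma r_nonneg (F G : Set ℂ) : 0 ≤ r F G :=
  le_max_of_le_left (Real.iSup_nonneg fun _ => Real.iInf_nonneg fun _ => dm_nonneg _ _)

lemma half_le (F G : Set ℂ) (η : ℝ) (hη : 0 ≤ η) (h : ∀ z ∈ F, ∃ w ∈ G, ‖z - w‖ ≤ η) :
    (⨆ z : F, ⨅ w : G, dm z w) ≤ η := by
  apply Real.iSup_le _ hη
  rintro ⟨z, hz⟩
  obtain ⟨w, hw, hzw⟩ := h z hz
  have : (⨅ w : G, dm z w) ≤ dm z w :=
    ciInf_le ⟨0, by rintro _ ⟨w, rfl⟩; exact dm_nonneg _ _⟩ (⟨w, hw⟩ : G)
  exact this.trans ((dm_le_norm z w).trans hzw)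

lemma r_le (F G : Set ℂ) (η : ℝ) (hη : 0 ≤ η) (h1 : ∀ z ∈ F, ∃ w ∈ G, ‖z - w‖ ≤ η)
    (h2 : ∀ z ∈ G, ∃ w ∈ F, ‖z - w‖ ≤ η) : r F G ≤ η :=
  max_le (half_le F G η hη h1) (half_le G F η hη h2)

lemma half_lt (F G : Set ℂ) (hF : Bornology.IsBounded F) (hG : G.Nonempty) (η : ℝ)
    (h : (⨆ z : F, ⨅ w : G, dm z w) < η) : ∀ z ∈ F, ∃ w ∈ G, ‖z - w‖ ≤ 2 * η := by
  intro z hz
  obtain ⟨w0, hw0⟩ := hG
  have : Nonempty G := ⟨⟨w0, hw0⟩⟩
  obtain ⟨C, hC⟩ := hF.exists_norm_le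
  have hbdd : BddAbove (Set.range fun z : F => ⨅ w : G, dm z w) := by
    refine ⟨C + ‖w0‖, ?_⟩
    rintro _ ⟨⟨y, hy⟩, rfl⟩
    have h1 : (⨅ w : G, dm y w) ≤ dm y w0 :=
      ciInf_le ⟨0, by rintro _ ⟨w, rfl⟩; exact dm_nonneg _ _⟩ (⟨w0, hw0⟩ : G)
    refine h1.trans ((dm_le_norm y w0).trans ((norm_sub_le _ _).trans ?_))
    have := hC y hy
    linarith
  have h1 : (⨅ w : G, dm z w) < η := lt_of_le_of_lt (le_ciSup hbdd ⟨z, hz⟩) h
  obtain ⟨⟨w, hw⟩, hlt⟩ := exists_lt_of_ciInf_lt h1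
  refine ⟨w, hw, (norm_le_dm z w).trans ?_⟩
  have : dm z w < η := hlt
  linarith

lemma curve_eq (P Q : Polynomial ℝ) (t : ℝ) :
    (⟨P.eval t, Q.eval t⟩ : ℂ) = ((P.eval t : ℝ) : ℂ) + ((Q.eval t : ℝ) : ℂ) * Complex.I := by
  apply Complex.ext <;> simp

lemma curve_nonempty (P Q : Polynomial ℝ) : (curve P Q).Nonempty :=
  ⟨_, ⟨0, ⟨le_refl _, zero_le_one⟩, rfl⟩⟩

lemma curve_bounded (P Q : Polynomial ℝ) : Bornology.IsBounded (curve P Q) := by
  apply IsCompact.isBounded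
  apply isCompact_Icc.image_of_continuousOn
  have : (fun t : ℝ => (⟨P.eval t, Q.eval t⟩ : ℂ)) =
      fun t : ℝ => ((P.eval t : ℝ) : ℂ) + ((Q.eval t : ℝ) : ℂ) * Complex.I := by
    funext t; exact curve_eq P Q t
  rw [this]
  have hP := P.continuous
  have hQ := Q.continuous
  fun_prop

lemma E_nonneg (n : ℕ) (F : Set ℂ) : 0 ≤ E n F := by
  apply Real.sInf_nonneg
  rintro _ ⟨P, Q, _, _, rfl⟩
  exact r_nonneg _ _

lemma E_le (n : ℕ) (F : Set ℂ) (P Q : Polynomial ℝ) (hP : P.natDegree ≤ n) (hQ : Q.natDegree ≤ n) :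
    E n F ≤ r F (curve P Q) :=
  csInf_le ⟨0, by rintro _ ⟨P, Q, _, _, rfl⟩; exact r_nonneg _ _⟩ ⟨P, Q, hP, hQ, rfl⟩

/-- upper bound for every curve of the class -/
lemma upper (n : ℕ) (hn : 1 ≤ n) (F : Set ℂ) (hF : F ∈ Gam) : E n F ≤ 42000 / n ^ 2 := by
  obtain ⟨K, hconv, hcomp, hne, rfl, hlen⟩ := hF
  have hn0 : (1 : ℝ) ≤ n := by exact_mod_cast hn
  set B0 : Body := ⟨K, hconv, hcomp, hne, Metric.diam K, by
    intro x hx y hy
    rw [← dist_eq_norm]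
    exact Metric.dist_le_diam_of_mem hcomp.isBounded hx hy⟩ with hB0
  have hD : ∀ x ∈ K, ∀ y ∈ K, ‖x - y‖ ≤ 1 := by
    intro x hx y hy
    have := B0.diam_le x y hx hy
    have h2 : ENNReal.ofReal ‖x - y‖ ≤ 1 := this.trans hlen.le
    rwa [ENNReal.ofReal_le_one] at h2
  set B : Body := ⟨K, hconv, hcomp, hne, 1, hD⟩ with hB
  set N := n / 2 + 1 with hN
  have hkey : ∀ ε : ℝ, 0 < ε → E n (frontier K) ≤ 10400 / (N + 1) ^ 2 + ε := by
    intro ε hε
    obtain ⟨P, Q, hP, hQ, h1, h2⟩ := B.approx_body N (by omega) (le_refl _) ε hε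
    refine (E_le n _ P Q (hP.trans (by omega)) (hQ.trans (by omega))).trans ?_
    apply r_le _ _ _ (by positivity)
    · intro w hw
      obtain ⟨τ, hτ, h⟩ := h2 w hw
      refine ⟨_, ⟨τ, hτ, rfl⟩, ?_⟩
      simp only
      rw [curve_eq, norm_sub_rev]
      exact h
    · rintro _ ⟨τ, hτ, rfl⟩
      obtain ⟨w, hw, h⟩ := h1 τ hτ
      refine ⟨w, hw, ?_⟩
      simp only
      rw [curve_eq]
      exact h
  have hlim : E n (frontier K) ≤ 10400 / (N + 1) ^ 2 := le_of_forall_pos_le_add hkey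
  refine hlim.trans ?_
  have hN2 : (n : ℝ) / 2 ≤ (N : ℝ) + 1 := by
    have : n ≤ 2 * (N + 1) := by omega
    have h3 : (n : ℝ) ≤ 2 * (N + 1) := by exact_mod_cast this
    linarith
  have hN3 : ((n : ℝ) / 2) ^ 2 ≤ ((N : ℝ) + 1) ^ 2 := by gcongr
  rw [div_le_div_iff₀ (by positivity) (by positivity)]
  nlinarith

/-- the extremal example -/
lemma lower' (n : ℕ) (hn : 1 ≤ n) : ∃ F ∈ Gam, 1 / (1700 * n ^ 2) ≤ E n F := by
  have hn0 : (1 : ℝ) ≤ n := by exact_mod_cast hn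
  have hπ := Real.pi_pos
  have hπ4 := Real.pi_lt_d2
  set M := 4 * (n + 1) with hM
  set B1 : Body := ⟨RP M 1, convex_convexHull ℝ _, RP_compact M 1, by
    refine ⟨0, ?_⟩
    rw [mem_interior_iff_mem_nhds, Metric.mem_nhds_iff]
    exact ⟨1 / 2, by norm_num, RP_ball n 1 one_pos⟩, 2, by
    intro x hx y hy
    have := norm_sub_le x y
    have h1 := RP_norm_le M x hx
    have h2 := RP_norm_le M y hy
    linarith⟩ with hB1
  set L := Measure.hausdorffMeasure 1 (frontier (RP M 1)) with hL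
  have hLle : L ≤ ENNReal.ofReal (4 * Real.pi) := B1.length_le fun x hx => RP_norm_le M x hx
  have hLtop : L ≠ ⊤ := ne_top_of_le_ne_top ENNReal.ofReal_ne_top hLle
  set ℓ := L.toReal with hℓ
  have hLℓ : L = ENNReal.ofReal ℓ := (ENNReal.ofReal_toReal hLtop).symm
  have hℓ4 : ℓ ≤ 4 * Real.pi := by
    rw [hLℓ] at hLle
    rwa [ENNReal.ofReal_le_ofReal_iff (by positivity)] at hLle
  have hℓ0 : 0 < ℓ := by
    have hb := RP_ball n 1 one_pos
    have h0 : (0 : ℂ) ∈ RP M 1 := hb (Metric.mem_ball_self (by norm_num))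
    have h1 : ((1 / 4 : ℝ) : ℂ) ∈ RP M 1 := by
      apply hb
      rw [Metric.mem_ball, dist_zero_right, Complex.norm_real]
      norm_num
    have h2 := B1.diam_le _ _ h1 h0
    have h3 : ENNReal.ofReal ‖((1 / 4 : ℝ) : ℂ) - 0‖ ≤ ENNReal.ofReal ℓ := by
      rw [← hLℓ]; exact h2
    rw [sub_zero, Complex.norm_real, ENNReal.ofReal_le_ofReal_iff ENNReal.toReal_nonneg] at h3
    norm_num at h3
    linarith
  set ρ := 1 / ℓ with hρ
  have hρ0 : 0 < ρ := by positivity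
  have hρ4 : 1 / (4 * Real.pi) ≤ ρ := by rw [hρ]; gcongr
  refine ⟨frontier (RP M ρ), ⟨RP M ρ, convex_convexHull ℝ _, RP_compact M ρ, ?_, rfl, ?_⟩, ?_⟩
  · refine ⟨0, ?_⟩
    rw [mem_interior_iff_mem_nhds, Metric.mem_nhds_iff]
    exact ⟨ρ / 2, by positivity, RP_ball n ρ hρ0⟩
  · rw [RP_length M ρ hρ0, ← hL, hLℓ, ← ENNReal.ofReal_mul hρ0.le, hρ]
    rw [one_div_mul_cancel hℓ0.ne', ENNReal.ofReal_one]
  · by_contra hcon
    push Not at hcon
    have hne : {x | ∃ P Q : Polynomial ℝ, P.natDegree ≤ n ∧ Q.natDegree ≤ n ∧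
        x = r (frontier (RP M ρ)) (curve P Q)}.Nonempty :=
      ⟨_, 0, 0, by simp, by simp, rfl⟩
    obtain ⟨_, ⟨P, Q, hP, hQ, rfl⟩, hlt⟩ := exists_lt_of_csInf_lt hne hcon
    have hbF : Bornology.IsBounded (frontier (RP M ρ)) :=
      (RP_compact M ρ).isBounded.subset (RP_compact M ρ).isClosed.frontier_subset
    have hneF : (frontier (RP M ρ)).Nonempty := ⟨_, RP_frontier M ρ hρ0.le 0 (by omega)⟩
    have h1 := half_lt _ _ hbF (curve_nonempty P Q) _ (lt_of_le_of_lt (le_max_left _ _) hlt)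
    have h2 := half_lt _ _ (curve_bounded P Q) hneF _ (lt_of_le_of_lt (le_max_right _ _) hlt)
    have hmain := lower n M (by omega) (by omega) ρ (2 * (1 / (1700 * n ^ 2))) hρ0 (by positivity)
      P Q hP hQ (by
        intro w hw
        obtain ⟨_, ⟨τ, hτ, rfl⟩, h⟩ := h1 w hw
        refine ⟨τ, hτ, ?_⟩
        simp only at h
        rw [curve_eq, norm_sub_rev] at h
        exact h) (by
        intro τ hτ
        obtain ⟨w, hw, h⟩ := h2 _ ⟨τ, hτ, rfl⟩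
        refine ⟨w, (RP_compact M ρ).isClosed.frontier_subset hw, ?_⟩
        simp only at h
        rw [curve_eq] at h
        exact h)
    have hM0 : (0 : ℝ) < M := by
      have : 0 < M := by omega
      exact_mod_cast this
    have hcos : Real.cos (Real.pi / M) ≤ 1 - 2 / (M : ℝ) ^ 2 := by
      have hM1 : (1 : ℝ) ≤ M := by
        have : 1 ≤ M := by omega
        exact_mod_cast this
      have h := Real.cos_le_one_sub_mul_cos_sq (x := Real.pi / M) (by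
        rw [abs_of_pos (by positivity)]
        exact div_le_self hπ.le hM1)
      refine h.trans (le_of_eq ?_)
      field_simp
    have hMn : (M : ℝ) ≤ 8 * n := by
      have : M ≤ 8 * n := by omega
      exact_mod_cast this
    have h5 : 2 / (8 * (n : ℝ)) ^ 2 ≤ 2 / (M : ℝ) ^ 2 := by gcongr
    have h6 : 1 / (4 * Real.pi) * (2 / (8 * (n : ℝ)) ^ 2) ≤ 2 * (2 * (1 / (1700 * n ^ 2))) := by
      refine le_trans ?_ hmain
      refine mul_le_mul hρ4 (by linarith) (by positivity) hρ0.le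
    have h7 : 1 / (4 * Real.pi) * (2 / (8 * (n : ℝ)) ^ 2) = 1 / (128 * Real.pi * n ^ 2) := by
      field_simp
      ring
    have h8 : 2 * (2 * (1 / (1700 * (n : ℝ) ^ 2))) = 1 / (425 * n ^ 2) := by
      field_simp
      ring
    rw [h7, h8, div_le_div_iff₀ (by positivity) (by positivity)] at h6
    have h9 : (128 * Real.pi) * (n : ℝ) ^ 2 < 425 * n ^ 2 := by
      apply mul_lt_mul_of_pos_right _ (by positivity)
      linarith
    linarith

theorem result : ∀ n : ℕ, 1 ≤ n → 1 / (1700 * (n : ℝ) ^ 2) ≤ e n ∧ e n ≤ 42000 / (n : ℝ) ^ 2 := by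
  intro n hn
  have hup : ∀ x ∈ {x | ∃ F ∈ Gam, x = E n F}, x ≤ 42000 / (n : ℝ) ^ 2 := by
    rintro _ ⟨F, hF, rfl⟩
    exact upper n hn F hF
  constructor
  · obtain ⟨F, hF, h⟩ := lower' n hn
    exact h.trans (le_csSup ⟨_, hup⟩ ⟨F, hF, rfl⟩)
  · exact Real.sSup_le hup (by positivity)

end Pool.Agent.Results.MP_24cacf_an.Order
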